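import Mathlib

/-! The belief-propagation image of product measures is not convex for q = 4, d = 2. -/

namespace Pool.Agent.Results.MP_d064d6_lc.NotConvex

/-- The antiferromagnetic Potts interaction matrix. -/
noncomputable def potts (q : ℕ) (β : ℝ) (c b : Fin q) : ℝ := if c = b then β else 1

/-- `G_c(μ)`, for `μ` given by its weights on `[q]^d`. -/
noncomputable def bpG (q d : ℕ) (β : ℝ) (μ : (Fin d → Fin q) → ℝ) (c : Fin q) : ℝ :=
  ∑ τ : Fin d → Fin q, μ τ * ∏ i, potts q β c (τ i)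

/-- The belief-propagation map `F_A(μ)`. -/
noncomputable def bpF (q d : ℕ) (β : ℝ) (μ : (Fin d → Fin q) → ℝ) (c : Fin q) : ℝ :=
  bpG q d β μ c / ∑ b, bpG q d β μ b

/-- The image of the product measures. -/
def prodImage (q d : ℕ) (β : ℝ) : Set (Fin q → ℝ) :=
  {x | ∃ p : Fin d → Fin q → ℝ, (∀ i, p i ∈ stdSimplex ℝ (Fin q)) ∧
    x = bpF q d β (fun τ => ∏ i, p i (τ i))}

lemma bpG_prod (q d : ℕ) (β : ℝ) (p : Fin d → Fin q → ℝ) (c : Fin q) :
    bpG q d β (fun τ => ∏ i, p i (τ i)) c = ∏ i, ∑ j, p i j * potts q β c j := by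
  unfold bpG
  rw [Finset.prod_univ_sum]
  simp [Finset.prod_mul_distrib]

lemma vertex (β : ℝ) (s t : Fin 4) :
    (fun c => potts 4 β c s * potts 4 β c t / ∑ b, potts 4 β b s * potts 4 β b t) ∈
      prodImage 4 2 β := by
  refine ⟨![Pi.single s 1, Pi.single t 1], ?_, ?_⟩
  · intro i
    fin_cases i <;> exact single_mem_stdSimplex ℝ _
  · funext c
    simp only [bpF, bpG_prod]
    simp [Fin.prod_univ_two, Pi.single_apply]

theorem result (β : ℝ) (h0 : 0 < β) (h1 : β < 1) : ¬ Convex ℝ (prodImage 4 2 β) := by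
  intro hc
  have m1 := vertex β 1 2
  have m2 := vertex β 1 3
  have m3 := vertex β 2 3
  have m12 := hc m1 m2 (by norm_num : (0 : ℝ) ≤ 1 / 2) (by norm_num : (0 : ℝ) ≤ 1 / 2) (by norm_num)
  obtain ⟨p, hp, hx⟩ :=
    hc m12 m3 (by norm_num : (0 : ℝ) ≤ 2 / 3) (by norm_num : (0 : ℝ) ≤ 1 / 3) (by norm_num)
  have e0 := congrFun hx 0
  have e1 := congrFun hx 1
  have e2 := congrFun hx 2
  have e3 := congrFun hx 3
  obtain ⟨ha, sa⟩ := hp 0
  obtain ⟨hb, sb⟩ := hp 1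
  have a0 := ha 0
  have a1 := ha 1
  have a2 := ha 2
  have a3 := ha 3
  have b0 := hb 0
  have b1 := hb 1
  have b2 := hb 2
  have b3 := hb 3
  have hG : ∀ c, bpG 4 2 β (fun τ => ∏ i, p i (τ i)) c =
      (1 - (1 - β) * p 0 c) * (1 - (1 - β) * p 1 c) := by
    intro c
    rw [bpG_prod, Fin.prod_univ_two]
    rw [Fin.sum_univ_four] at sa sb
    fin_cases c <;> simp [Fin.sum_univ_four, potts] <;> congr 1 <;> linarith
  simp only [bpF, hG] at e0 e1 e2 e3
  simp [Fin.sum_univ_four, potts] at e0 e1 e2 e3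
  rw [Fin.sum_univ_four] at sa sb
  set γ := 1 - β with hγ
  have hγ0 : 0 < γ := by linarith
  have hγ1 : γ < 1 := by linarith
  set g0 := (1 - γ * p 0 0) * (1 - γ * p 1 0) with hg0
  set g1 := (1 - γ * p 0 1) * (1 - γ * p 1 1) with hg1
  set g2 := (1 - γ * p 0 2) * (1 - γ * p 1 2) with hg2
  set g3 := (1 - γ * p 0 3) * (1 - γ * p 1 3) with hg3
  have pos : ∀ x : ℝ, 0 ≤ x → x ≤ 1 → 0 < 1 - γ * x := fun x _ hx1 => by nlinarith
  have hS : 0 < g0 + g1 + g2 + g3 := by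
    have := mul_pos (pos _ a0 (by linarith)) (pos _ b0 (by linarith))
    have := mul_pos (pos _ a1 (by linarith)) (pos _ b1 (by linarith))
    have := mul_pos (pos _ a2 (by linarith)) (pos _ b2 (by linarith))
    have := mul_pos (pos _ a3 (by linarith)) (pos _ b3 (by linarith))
    linarith
  rw [eq_div_iff hS.ne'] at e0 e1 e2 e3
  generalize g0 + g1 + g2 + g3 = S at e0 e1 e2 e3
  have r1 : 3 * g1 = (1 + 2 * β) * g0 := by
    rw [← e0, ← e1]; field_simp; ring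
  have r2 : 3 * g2 = (1 + 2 * β) * g0 := by
    rw [← e0, ← e2]; field_simp; ring
  have r3 : 3 * g3 = (1 + 2 * β) * g0 := by
    rw [← e0, ← e3]; field_simp; ring
  have hβ : β = 1 - γ := by linarith
  -- the supporting functional vanishes, so the supports are disjoint and avoid colour 0
  have key : γ * (p 0 1 * p 1 1 + p 0 2 * p 1 2 + p 0 3 * p 1 3)
      + (4 - 2 * γ) * (p 0 0 + p 1 0) - (3 - 2 * γ) * γ * (p 0 0 * p 1 0) = 0 := by
    have : γ * (γ * (p 0 1 * p 1 1 + p 0 2 * p 1 2 + p 0 3 * p 1 3)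
      + (4 - 2 * γ) * (p 0 0 + p 1 0) - (3 - 2 * γ) * γ * (p 0 0 * p 1 0)) = 0 := by
      rw [hβ] at r1 r2 r3
      linear_combination (1 / 3) * (r1 + r2 + r3) - (hg1 + hg2 + hg3) + (3 - 2 * γ) * hg0
        + γ * (sa + sb)
    exact (mul_eq_zero.1 this).resolve_left hγ0.ne'
  have t1 := mul_nonneg a1 b1
  have t2 := mul_nonneg a2 b2
  have t3 := mul_nonneg a3 b3
  have t0 : p 0 0 * p 1 0 ≤ p 0 0 := by nlinarith
  have t0' : (3 - 2 * γ) * γ * (p 0 0 * p 1 0) ≤ 3 / 2 * p 0 0 := by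
    have : (3 - 2 * γ) * γ ≤ 3 / 2 := by nlinarith
    have h2 := mul_nonneg a0 b0
    nlinarith
  have u : γ * (p 0 1 * p 1 1 + p 0 2 * p 1 2 + p 0 3 * p 1 3) ≥ 0 := by positivity
  have za : p 0 0 = 0 := by nlinarith
  have zb : p 1 0 = 0 := by nlinarith
  have zs : p 0 1 * p 1 1 + p 0 2 * p 1 2 + p 0 3 * p 1 3 = 0 := by
    rw [za, zb] at key
    have : γ * (p 0 1 * p 1 1 + p 0 2 * p 1 2 + p 0 3 * p 1 3) = 0 := by linarith
    exact (mul_eq_zero.1 this).resolve_left hγ0.ne'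
  have z1 : p 0 1 * p 1 1 = 0 := by linarith
  have z2 : p 0 2 * p 1 2 = 0 := by linarith
  have z3 : p 0 3 * p 1 3 = 0 := by linarith
  have w : ∀ x y g : ℝ, g = (1 - γ * x) * (1 - γ * y) → x * y = 0 → 3 * g = (1 + 2 * β) * g0 →
      x + y = 2 / 3 := by
    intro x y g hg hxy hr
    have : γ * (x + y - 2 / 3) = 0 := by
      rw [hg0, za, zb, hβ, hg] at hr
      linear_combination (-1 / 3) * hr + γ ^ 2 * hxy
    have := (mul_eq_zero.1 this).resolve_left hγ0.ne'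
    linarith
  have w1 := w _ _ _ hg1 z1 r1
  have w2 := w _ _ _ hg2 z2 r2
  have w3 := w _ _ _ hg3 z3 r3
  rcases mul_eq_zero.1 z1 with h | h <;> rcases mul_eq_zero.1 z2 with h' | h' <;>
    rcases mul_eq_zero.1 z3 with h'' | h'' <;> linarith

end Pool.Agent.Results.MP_d064d6_lc.NotConvex
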